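import Pool.Agent.W654.Kron
import Pool.Agent.X302.TR.Stm

set_option autoImplicit false

namespace Pool.Agent.X97.TR

open Pool.Agent.X302.TR

theorem exists_step (n : ℕ) (e : V n) : ∃ h : ℝ, 0 < h ∧
    ∀ (m : Fin n → ℤ) (k : ℤ), h * dot m e = k → dot m e = 0 := by
  let B : Set ℝ := ⋃ m : Fin n → ℤ, ⋃ k : ℤ, {h | h * dot m e = k ∧ dot m e ≠ 0}
  have hB : B.Countable := by
    refine Set.countable_iUnion fun m => Set.countable_iUnion fun k => ?_
    refine Set.Subsingleton.countable ?_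
    rintro a ⟨ha, ha'⟩ b ⟨hb, _⟩
    exact mul_right_cancel₀ ha' (ha.trans hb.symm)
  obtain ⟨h, hh1, hh2⟩ := (hB.dense_compl ℝ).exists_mem_open (isOpen_Ioo (a := (0:ℝ)) (b := 1))
    ⟨1/2, by norm_num, by norm_num⟩
  refine ⟨h, hh2.1, fun m k hk => ?_⟩
  by_contra hne
  exact hh1 (Set.mem_iUnion.2 ⟨m, Set.mem_iUnion.2 ⟨k, hk, hne⟩⟩)

theorem sum_coe {n : ℕ} (k : Fin n → ℤ) (u : V n) :
    ∑ i, k i • ((u i : ℝ) : UnitAddCircle) = ((dot k u : ℝ) : UnitAddCircle) := by
  unfold dot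
  have : ∀ i, k i • ((u i : ℝ) : UnitAddCircle) = (((k i : ℝ) * u i : ℝ) : UnitAddCircle) := by
    intro i
    rw [← zsmul_eq_mul]
    exact (AddCircle.coe_zsmul (p := (1:ℝ)) (n := k i) (x := u i)).symm
  rw [Finset.sum_congr rfl fun i _ => this i]
  exact (map_sum (QuotientAddGroup.mk' (AddSubgroup.zmultiples (1:ℝ)))
    (fun i => (k i : ℝ) * u i) Finset.univ).symm

theorem dot_add' {n : ℕ} (k : Fin n → ℤ) (u w : V n) : dot k (u + w) = dot k u + dot k w := by
  unfold dot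
  rw [← Finset.sum_add_distrib]
  exact Finset.sum_congr rfl fun i _ => by rw [Pi.add_apply]; ring

theorem dot_smul' {n : ℕ} (k : Fin n → ℤ) (c : ℝ) (u : V n) : dot k (c • u) = c * dot k u := by
  unfold dot
  rw [Finset.mul_sum]
  exact Finset.sum_congr rfl fun i _ => by rw [Pi.smul_apply, smul_eq_mul]; ring

theorem t_KRON : Pool.Agent.X302.TR.S_KRON := by
  intro n e v hv ε hε S
  obtain ⟨h, hh, hstep⟩ := exists_step n e
  obtain ⟨N0, hN0⟩ := exists_nat_ge (S / h)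
  let w : V n := v + ((N0 : ℝ) * h) • e
  obtain ⟨N, hN⟩ := Pool.Agent.W654.Kron.kronecker (d := Fin n)
    (fun i => ((h * e i : ℝ) : UnitAddCircle)) (fun i => ((-(w i) : ℝ) : UnitAddCircle)) (by
      intro k hk
      have h1 : ∑ i, k i • (((h • e) i : ℝ) : UnitAddCircle) = 0 := hk
      rw [sum_coe, dot_smul', AddCircle.coe_eq_zero_iff] at h1
      obtain ⟨t, ht⟩ := h1
      have h2 : dot k e = 0 := hstep k t (by rw [← ht]; simp)
      obtain ⟨t', ht'⟩ := hv k h2
      have h3 : ∑ i, k i • ((((-1 : ℝ) • w) i : ℝ) : UnitAddCircle) = 0 := by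
        rw [sum_coe, dot_smul', AddCircle.coe_eq_zero_iff]
        refine ⟨-t', ?_⟩
        show (-t') • (1:ℝ) = -1 * dot k (v + ((N0 : ℝ) * h) • e)
        rw [dot_add', dot_smul', h2, ht']
        simp
      have h4 : (fun i => k i • ((((-1 : ℝ) • w) i : ℝ) : UnitAddCircle)) =
          fun i => k i • ((-(w i) : ℝ) : UnitAddCircle) := by
        funext i
        rw [Pi.smul_apply, smul_eq_mul, neg_one_mul]
      rw [← h3]
      exact Finset.sum_congr rfl fun i _ => (congrFun h4 i).symm) ε hε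
  refine ⟨((N0 : ℝ) + N) * h, ?_, fun i => round (v i + ((N0 : ℝ) + N) * h * e i), ?_⟩
  · have h1 : S ≤ N0 * h := by
      rw [div_le_iff₀ hh] at hN0
      exact hN0
    nlinarith [mul_nonneg (Nat.cast_nonneg (α := ℝ) N) hh.le]
  · rw [pi_norm_lt_iff hε]
    intro i
    have h1 := (dist_pi_lt_iff hε).1 hN i
    rw [dist_eq_norm] at h1
    have h2 : (N • (fun i => ((h * e i : ℝ) : UnitAddCircle))) i - ((-(w i) : ℝ) : UnitAddCircle) =
        ((v i + ((N0 : ℝ) + N) * h * e i : ℝ) : UnitAddCircle) := by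
      rw [Pi.smul_apply]
      have e1 : N • ((h * e i : ℝ) : UnitAddCircle) = ((N • (h * e i) : ℝ) : UnitAddCircle) :=
        (AddCircle.coe_nsmul (p := (1:ℝ)) (n := N) (x := h * e i)).symm
      rw [e1, ← AddCircle.coe_sub]
      congr 1
      show N • (h * e i) - -(v i + ((N0 : ℝ) * h) * e i) = _
      rw [nsmul_eq_mul]
      ring
    rw [h2, UnitAddCircle.norm_eq] at h1
    rw [Real.norm_eq_abs, Pi.sub_apply, abs_sub_comm]
    exact h1

end Pool.Agent.X97.TR
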